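import Pool.Agent.MP_961ca8_al.H15.Spec

/-!
# Row SPLIT: approximate splittings
-/

namespace Pool.Agent.MP_961ca8_al.H15

open MvPolynomial

namespace SplitP

variable {B : Type} [CommRing B]

/-- The projection on the degrees divisible by four. -/
noncomputable def pi4 : P B →ₗ[B] P B :=
  weightedHomogeneousComponent (fun _ : Fin 3 => (1 : ZMod 4)) 0

theorem weight_eq (a : Fin 3 →₀ ℕ) :
    Finsupp.weight (fun _ : Fin 3 => (1 : ZMod 4)) a = ((a.degree : ℕ) : ZMod 4) := by
  rw [Finsupp.weight_apply, Finsupp.degree_apply, Finsupp.sum]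
  simp

theorem coeff_pi4 (g : P B) (a : Fin 3 →₀ ℕ) :
    coeff a (pi4 g) = if 4 ∣ a.degree then coeff a g else 0 := by
  rw [pi4, coeff_weightedHomogeneousComponent, weight_eq]
  simp only [ZMod.natCast_eq_zero_iff]

theorem pi4_mul {r : P B} (hr : ∀ a : Fin 3 →₀ ℕ, coeff a r ≠ 0 → 4 ∣ a.degree) (g : P B) :
    pi4 (r * g) = r * pi4 g := by
  ext a
  rw [coeff_pi4, coeff_mul, coeff_mul]
  split_ifs with h
  · refine Finset.sum_congr rfl fun x hx => ?_
    by_cases h0 : coeff x.1 r = 0
    · rw [h0, zero_mul, zero_mul]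
    · have h1 := hr _ h0
      have h2 : x.1.degree + x.2.degree = a.degree := by
        rw [← map_add, Finset.HasAntidiagonal.mem_antidiagonal.1 hx]
      rw [coeff_pi4, if_pos (by omega)]
  · refine (Finset.sum_eq_zero fun x hx => ?_).symm
    by_cases h0 : coeff x.1 r = 0
    · rw [h0, zero_mul]
    · have h1 := hr _ h0
      have h2 : x.1.degree + x.2.degree = a.degree := by
        rw [← map_add, Finset.HasAntidiagonal.mem_antidiagonal.1 hx]
      rw [coeff_pi4, if_neg (by omega), mul_zero]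

theorem pi4_self {h : P B} {n : ℕ} (hh : h.IsHomogeneous (4 * n)) : pi4 h = h := by
  ext a
  rw [coeff_pi4]
  split_ifs with h1
  · rfl
  · exact (hh.coeff_eq_zero fun h2 => h1 ⟨n, h2⟩).symm

theorem dvd_degree (hgr : GrStmt) {s : B} {r : P B} (hr : r ∈ Aalg s) (a : Fin 3 →₀ ℕ)
    (ha : coeff a r ≠ 0) : 4 ∣ a.degree := by
  by_contra h
  have h1 := (hgr B s r hr a.degree).2.1 h
  have h2 := coeff_homogeneousComponent a.degree r a
  rw [h1, if_pos rfl, coeff_zero] at h2
  exact ha h2.symm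

theorem mul_mem_Q (s : B) (i : Fin 3) {k m N N' : ℕ} (hN : N' ≤ N) {G f : P B}
    (hG : G ∈ Q s i k ⊔ Ideal.span {(C s : P B) ^ N}) (hf : f ∈ Q s i m) :
    G * f ∈ Q s i (k + m) ⊔ Ideal.span {(C s : P B) ^ N'} := by
  obtain ⟨x, hx, y, hy, rfl⟩ := Submodule.mem_sup.1 hG
  rw [add_mul]
  refine add_mem (Ideal.mem_sup_left ?_) (Ideal.mem_sup_right ?_)
  · rw [Q, pow_add]
    exact Ideal.mul_mem_mul hx hf
  · rw [Ideal.mem_span_singleton] at hy ⊢
    exact ((pow_dvd_pow _ hN).trans hy).mul_right _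

/-- The diagonal exponent vector. -/
noncomputable def dg (c : ℕ) : Fin 3 →₀ ℕ :=
  Finsupp.single 0 c + Finsupp.single 1 c + Finsupp.single 2 c

theorem dg_apply (c : ℕ) (i : Fin 3) : dg c i = c := by
  fin_cases i <;> simp [dg]

theorem dg_degree (c : ℕ) : (dg c).degree = 3 * c := by
  simp only [dg, map_add, Finsupp.degree_single]
  ring

theorem pow_eq_monomial (c : ℕ) : ((X 0 * X 1 * X 2) ^ c : P B) = monomial (dg c) 1 := by
  simp only [mul_pow, X_pow_eq_monomial, monomial_mul, dg, mul_one]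

/-- The least power of the variable that occurs in a coefficient. -/
theorem exists_trail {K : Type} [CommRing K] {c : P (Polynomial K)} (hc : c ≠ 0) :
    ∃ (v : ℕ) (a : Fin 3 →₀ ℕ) (c' : P (Polynomial K)), (coeff a c).coeff v ≠ 0 ∧
      c = C (Polynomial.X ^ v) * c' := by
  classical
  have hex : ∃ v : ℕ, ∃ a : Fin 3 →₀ ℕ, (coeff a c).coeff v ≠ 0 := by
    by_contra h
    push Not at h
    apply hc
    ext a v
    simp [h v a]
  obtain ⟨a, ha⟩ := Nat.find_spec hex
  have hd : (C (Polynomial.X ^ Nat.find hex) : P (Polynomial K)) ∣ c := by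
    rw [C_dvd_iff_dvd_coeff]
    intro b
    rw [Polynomial.X_pow_dvd_iff]
    intro j hj
    have := Nat.find_min hex hj
    push Not at this
    exact this b
  obtain ⟨c', hc'⟩ := hd
  exact ⟨_, a, c', ha, hc'⟩

end SplitP

open SplitP in
theorem split_of : KLStmt → GrStmt → LiftStmt → PHStmt → PQStmt → SplitStmt := by
  intro hkl hgr hlift hph hpq p _ c hc t
  have hc0 : (c : P (Polynomial (ZMod p))) ≠ 0 := fun h => hc (Subtype.ext h)
  obtain ⟨v, a0, c', hκ, hc'⟩ := exists_trail hc0
  have ha0 : coeff a0 (c : P (Polynomial (ZMod p))) ≠ 0 := fun h => hκ (by rw [h]; simp)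
  obtain ⟨n0, hn0⟩ := dvd_degree hgr c.2 a0 ha0
  obtain ⟨k0, hk0⟩ := hkl (Polynomial (ZMod p)) Polynomial.X (3 * n0) (t + 1)
  refine ⟨(c : P (Polynomial (ZMod p))).totalDegree + v + k0 + 4 * n0 + t * (n0 + 1) + 1,
    fun e he => ?_⟩
  have hp : 1 < p := (Fact.out : p.Prime).one_lt
  have hq : e < p ^ e := Nat.lt_pow_self hp
  obtain ⟨k, hk⟩ : ∃ k : ℕ, p ^ e = k + n0 + 1 := ⟨p ^ e - n0 - 1, by omega⟩
  obtain ⟨G, hG1, hG2, hG3⟩ := hk0 k (by omega)
  have hd : ∀ i, (dg (k - 3 * n0) + a0) i < p ^ e := fun i => by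
    have h1 := Finsupp.le_degree i a0
    rw [Finsupp.add_apply, dg_apply]
    omega
  obtain ⟨φ, hφ1, hφ2⟩ := hph p e v (dg (k - 3 * n0) + a0) (by omega) hd
  have hφ0 : ∀ (f : P (Polynomial (ZMod p))) (a : Fin 3 →₀ ℕ),
      coeff (p ^ e • a + (dg (k - 3 * n0) + a0)) f = 0 → coeff a (φ f) = 0 := fun f a h => by
    ext j
    rw [hφ2, h]
    simp
  have hdeg : ∀ a : Fin 3 →₀ ℕ, (p ^ e • a + (dg (k - 3 * n0) + a0)).degree =
      p ^ e * a.degree + (3 * (k - 3 * n0) + 4 * n0) := fun a => by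
    rw [map_add, map_add, map_nsmul, dg_degree, hn0, smul_eq_mul]
  let ψ : AR p →+ P (Polynomial (ZMod p)) :=
    { toFun := fun f => pi4 (φ (G * f))
      map_zero' := by simp
      map_add' := fun f g => by simp [mul_add] }
  have hψ : ∀ f : AR p, ψ f = pi4 (φ (G * f)) := fun _ => rfl
  refine ⟨ψ, fun r f => ?_, fun f => ?_, coeff 0 (φ (G * c)), ?_, ?_⟩
  · rw [hψ, hψ, ← pi4_mul (dvd_degree hgr r.2), ← hφ1]
    congr 2
    push_cast
    ring
  · have key : ∀ m : ℕ, ∃ ρ ∈ Aalg (Polynomial.X : Polynomial (ZMod p)),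
        pi4 (φ (G * homogeneousComponent m (f : P (Polynomial (ZMod p))))) - ρ ∈
          Ideal.span {(C Polynomial.X : P (Polynomial (ZMod p))) ^ t} := by
      intro m
      obtain ⟨-, g2, g3⟩ := hgr _ Polynomial.X _ f.2 m
      by_cases h0 : pi4 (φ (G * homogeneousComponent m (f : P (Polynomial (ZMod p))))) = 0
      · exact ⟨0, zero_mem _, by rw [h0, sub_zero]; exact zero_mem _⟩
      have hm : 4 ∣ m := by
        by_contra hm
        apply h0
        rw [g2 hm]
        simp
      obtain ⟨m', rfl⟩ := hm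
      have hh := hG1.mul (homogeneousComponent_isHomogeneous (4 * m') (f : P (Polynomial (ZMod p))))
      have hco : ∀ a : Fin 3 →₀ ℕ, coeff a
          (φ (G * homogeneousComponent (4 * m') (f : P (Polynomial (ZMod p))))) ≠ 0 →
          p ^ e * a.degree + 4 * n0 = 4 * m' := fun a ha => by
        by_contra hne
        refine ha (hφ0 _ a (hh.coeff_eq_zero ?_))
        rw [hdeg]
        omega
      obtain ⟨a, ha⟩ := ne_zero_iff.1 h0
      rw [coeff_pi4] at ha
      have h4 : 4 ∣ a.degree := by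
        by_contra h4
        exact ha (if_neg h4)
      rw [if_pos h4] at ha
      obtain ⟨n, hn⟩ := h4
      have h5 := hco a ha
      rw [hn] at h5
      have hhom : (φ (G * homogeneousComponent (4 * m')
          (f : P (Polynomial (ZMod p))))).IsHomogeneous (4 * n) := by
        intro b hb
        have h6 := hco b hb
        have h7 : p ^ e * b.degree = p ^ e * (4 * n) := by omega
        have h8 := Nat.eq_of_mul_eq_mul_left (by omega : 0 < p ^ e) h7
        rw [← h8, Finsupp.degree_eq_weight_one]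
        rfl
      have hm' : k + m' = n * p ^ e + (p ^ e - 1) := by
        have h6 : p ^ e * (4 * n) = 4 * (n * p ^ e) := by ring
        omega
      have hN : t * p ^ e ≤ (t + 1) * k := by
        have h6 : t * p ^ e = t * k + t * (n0 + 1) := by rw [hk]; ring
        have h7 : (t + 1) * k = t * k + k := by ring
        omega
      obtain ⟨ρ, hρ, -, hρ2⟩ := hlift _ Polynomial.X Polynomial.X_ne_zero t n _ hhom fun i => by
        refine hpq _ Polynomial.X (p ^ e) (by omega) φ hφ1 i n t _ ?_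
        rw [← hm']
        exact mul_mem_Q _ i hN (hG3 i) (g3 m' i rfl)
      exact ⟨ρ, hρ, by rw [pi4_self hhom]; exact hρ2⟩
    choose ρ hρ1 hρ2 using key
    refine ⟨⟨∑ m ∈ Finset.range ((f : P (Polynomial (ZMod p))).totalDegree + 1), ρ m,
      sum_mem fun m _ => hρ1 m⟩, ?_⟩
    have h1 : ψ f = ∑ m ∈ Finset.range ((f : P (Polynomial (ZMod p))).totalDegree + 1),
        pi4 (φ (G * homogeneousComponent m (f : P (Polynomial (ZMod p))))) := by
      rw [← map_sum, ← map_sum, ← Finset.mul_sum, sum_homogeneousComponent, hψ]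
    rw [h1, ← Finset.sum_sub_distrib]
    exact sum_mem fun m _ => hρ2 m
  · obtain ⟨G', hG'⟩ := Ideal.mem_span_singleton.1 hG2
    have h1 : G * (c : P (Polynomial (ZMod p))) =
        monomial (dg (k - 3 * n0)) 1 * (c : P (Polynomial (ZMod p))) +
          C (Polynomial.X ^ (v + 1)) * (G' * c') := by
      rw [← pow_eq_monomial, sub_eq_iff_eq_add'.1 hG', add_mul]
      congr 1
      rw [hc', pow_succ, map_mul]
      ring
    rw [hφ2, h1, smul_zero, zero_add, mul_zero, zero_add, coeff_add, coeff_monomial_mul, one_mul,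
      coeff_C_mul, Polynomial.coeff_add, Polynomial.coeff_X_pow_mul', if_neg (by omega), add_zero]
    exact hκ
  · have h1 : φ (G * c) = C (coeff 0 (φ (G * c))) := by
      ext1 a
      rw [coeff_C]
      split_ifs with h
      · rw [h]
      · refine hφ0 _ a (coeff_eq_zero_of_totalDegree_lt ?_)
        have h2 : 0 < a.degree := Nat.pos_of_ne_zero fun h3 =>
          h ((Finsupp.degree_eq_zero_iff a).1 h3).symm
        have h3 := totalDegree_mul G (c : P (Polynomial (ZMod p)))
        have h4 := hG1.totalDegree_le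
        have h5 : p ^ e ≤ p ^ e * a.degree := Nat.le_mul_of_pos_right _ h2
        rw [← Finsupp.degree_apply, hdeg]
        omega
    rw [hψ, h1, pi4_self (n := 0) (isHomogeneous_C _ _), coeff_zero_C]

end Pool.Agent.MP_961ca8_al.H15
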